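import Pool.Agent.Y722.TP.Main
import Pool.Agent.Y722.TM.Complete

/-!
# Tensor powers of the primitive cohomology of all hypersurfaces of degree `d`
-/

set_option autoImplicit false

namespace Pool.Agent.Y722.TP

open Finset Pool.Agent.Y722.HS Pool.Agent.Y722.LS Pool.Agent.Y722.PC Pool.Agent.Y722.TM

variable {n : ℕ}

/-- The forms of degree `d` separate `d + 1` points. -/
theorem sepK_monp {K d : ℕ} (hK : K ≤ d + 1) (p : ℕ) [Fact p.Prime] :
    SepK K (fun μ : Mon n d => monp μ) p := by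
  rintro x Y hcard hY ⟨μ, hμ⟩
  by_cases hx : x = 0
  · subst hx
    refine ⟨Pi.single μ 1, ?_, fun y hy => ?_⟩
    · rw [eval_lform_monp, Finset.sum_eq_single μ]
      · rw [aeval_monp] at hμ
        simpa using hμ
      · intro ν _ hν
        simp [hν]
      · intro h
        exact absurd (Finset.mem_univ _) h
    · obtain ⟨i, j, hij⟩ := hY y hy
      simp at hij
  · obtain ⟨k, hk⟩ : ∃ k, x k ≠ 0 := Function.ne_iff.mp hx
    choose! i j hij using hY
    set ℓ : (Fin (n + 1) → ZMod p) → MvPolynomial (Fin (n + 1)) (ZMod p) := fun y =>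
      MvPolynomial.C (y (j y)) * MvPolynomial.X (i y) -
        MvPolynomial.C (y (i y)) * MvPolynomial.X (j y) with hℓ
    have hℓh : ∀ y, (ℓ y).IsHomogeneous 1 := by
      intro y
      refine MvPolynomial.IsHomogeneous.sub ?_ ?_
      · have := (MvPolynomial.isHomogeneous_C (Fin (n + 1)) (y (j y))).mul
          (MvPolynomial.isHomogeneous_X (ZMod p) (i y))
        rwa [zero_add] at this
      · have := (MvPolynomial.isHomogeneous_C (Fin (n + 1)) (y (i y))).mul
          (MvPolynomial.isHomogeneous_X (ZMod p) (j y))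
        rwa [zero_add] at this
    have hev : ∀ (y z : Fin (n + 1) → ZMod p), MvPolynomial.eval z (ℓ y) =
        y (j y) * z (i y) - y (i y) * z (j y) := by
      intro y z
      simp [hℓ]
    set Q : MvPolynomial (Fin (n + 1)) (ZMod p) :=
      (∏ y ∈ Y, ℓ y) * MvPolynomial.X k ^ (d - Y.card) with hQ
    have hQh : Q.IsHomogeneous d := by
      have h1 := MvPolynomial.IsHomogeneous.prod Y ℓ (fun _ => 1) (fun y _ => hℓh y)
      have h2 := (MvPolynomial.isHomogeneous_X (ZMod p) k).pow (d - Y.card)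
      have h3 := h1.mul h2
      have h4 : ∑ _y ∈ Y, 1 + 1 * (d - Y.card) = d := by
        rw [Finset.sum_const, smul_eq_mul, mul_one, one_mul]
        omega
      rw [h4] at h3
      exact h3
    refine ⟨fun μ => Q.coeff (toFs μ), ?_, ?_⟩
    · rw [eval_lform_monp, ← eval_hom' Q hQh, hQ, map_mul, map_prod, map_pow,
        MvPolynomial.eval_X]
      refine mul_ne_zero (Finset.prod_ne_zero_iff.mpr fun y hy => ?_) (pow_ne_zero _ hk)
      rw [hev]
      intro h
      apply hij y hy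
      rw [mul_comm (x (i y)), mul_comm (x (j y))]
      exact sub_eq_zero.mp h
    · intro y hy
      rw [eval_lform_monp, ← eval_hom' Q hQh, hQ, map_mul, map_prod]
      have : ∏ z ∈ Y, MvPolynomial.eval y (ℓ z) = 0 := by
        apply Finset.prod_eq_zero hy
        rw [hev]
        ring
      rw [this, zero_mul]

/-- **Tensor powers of the primitive cohomology of all hypersurfaces of degree `d` in `ℙⁿ`, times a
fixed motive.** -/
theorem powersComplete {d k : ℕ} (hn : 2 ≤ n) (hd : 1 ≤ d) (hk : 2 * k ≤ d + 1) (r b : ℕ) :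
    ∃ C : ℝ, ∀ (wt : ℝ) (β : ℕ → Fin r → ℂ),
      (∀ p : ℕ, p.Prime → ∀ i, ‖β p i‖ ≤ (p : ℝ) ^ (wt / 2)) →
      ∀ H : ℕ, 2 ≤ H → ∀ T : ℝ, 0 ≤ T → ∀ S ⊆ box (Mon n d) H,
      ∀ (γ : (Mon n d → ℤ) → ℕ → Fin b → ℂ) (ε t : (Mon n d → ℤ) → ℝ),
      (∀ c ∈ S, IsFrobP (fun μ : Mon n d => monp μ)
        (fun p => ((p : ℝ) ^ n - 1) / ((p : ℝ) - 1)) k wt β b c (γ c)) →
      (∀ c ∈ S, 1 / Real.log H ≤ ε c ∧ ε c ≤ 1) → (∀ c ∈ S, |t c| ≤ T) →
      ∑ c ∈ S, (Real.log ‖LP (γ c) ((k * ((n : ℂ) - 1) + wt) / 2 + 1 + ε c + t c * Complex.I)‖ -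
        gm k * Real.log ‖LP β ((wt : ℂ) / 2 + 1 + ε c + t c * Complex.I)‖) ^ 2 ≤
        C * (1 + T) * (box (Mon n d) H).card := by
  have hz : ∀ p : ℕ, p.Prime → zn (fun μ : Mon n d => monp μ) p = 0 := by
    intro p hp
    have := Fact.mk hp
    rw [zn, bcone_monp]
    simp
  exact powers hn hd (fun μ : Mon n d => monp μ) (fun μ => monp_hom μ) (fermat n d ℤ)
    (smooth_fermat d hd) 0 k (fun p hp _ => by have := Fact.mk hp; exact sepK_monp hk p)
    (fun p => ((p : ℝ) ^ n - 1) / ((p : ℝ) - 1)) 0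
    (fun p hp _ => by rw [hz p hp]; simp) (fun p hp _ => by rw [hz p hp]; simp) r b

end Pool.Agent.Y722.TP
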