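import Mathlib

/-!
# Central moments of the binomial distribution
-/

set_option autoImplicit false

namespace Pool.Agent.Y722.TP

open Finset

/-- The expectation of `g` for the binomial distribution with the parameters `n` and `q`. -/
def BN (q : ℝ) : ℕ → (ℕ → ℝ) → ℝ
  | 0, g => g 0
  | n + 1, g => q * BN q n (fun j => g (j + 1)) + (1 - q) * BN q n g

variable {q : ℝ}

theorem BN_add (n : ℕ) (g h : ℕ → ℝ) : BN q n (fun j => g j + h j) = BN q n g + BN q n h := by
  induction n generalizing g h with
  | zero => rfl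
  | succ n ih =>
    simp only [BN]
    rw [ih, ih]
    ring

theorem BN_mul (n : ℕ) (t : ℝ) (g : ℕ → ℝ) : BN q n (fun j => t * g j) = t * BN q n g := by
  induction n generalizing g with
  | zero => rfl
  | succ n ih =>
    simp only [BN]
    rw [ih, ih]
    ring

theorem BN_sum {κ : Type*} (s : Finset κ) (n : ℕ) (g : κ → ℕ → ℝ) :
    BN q n (fun j => ∑ a ∈ s, g a j) = ∑ a ∈ s, BN q n (g a) := by
  classical
  induction s using Finset.induction_on with
  | empty =>
    simp only [Finset.sum_empty]
    have := BN_mul (q := q) n 0 (fun _ => 0)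
    simpa using this
  | insert a s ha ih =>
    simp only [Finset.sum_insert ha]
    rw [BN_add, ih]

theorem BN_one (n : ℕ) : BN q n (fun _ => 1) = 1 := by
  induction n with
  | zero => rfl
  | succ n ih => simp only [BN]; rw [ih]; ring

/-- The factorial moments. -/
theorem BN_choose (n i : ℕ) : BN q n (fun j => (j.choose i : ℝ)) = (n.choose i : ℝ) * q ^ i := by
  induction n generalizing i with
  | zero => cases i <;> simp [BN]
  | succ n ih =>
    cases i with
    | zero =>
      simp only [Nat.choose_zero_right, Nat.cast_one, pow_zero, mul_one]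
      exact BN_one (n + 1)
    | succ i =>
      simp only [BN]
      have h1 : BN q n (fun j => (((j + 1).choose (i + 1) : ℕ) : ℝ)) =
          BN q n (fun j => (j.choose i : ℝ)) + BN q n (fun j => (j.choose (i + 1) : ℝ)) := by
        rw [← BN_add]
        congr 1
        funext j
        rw [Nat.choose_succ_succ]
        push_cast
        ring
      rw [h1, ih, ih, Nat.choose_succ_succ]
      push_cast
      ring

theorem BN_id_mul (n : ℕ) (g : ℕ → ℝ) :
    BN q (n + 1) (fun j => (j : ℝ) * g j) = (n + 1) * q * BN q n (fun j => g (j + 1)) := by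
  induction n generalizing g with
  | zero => simp [BN]
  | succ n ih =>
    have h1 : BN q (n + 1 + 1) (fun j => (j : ℝ) * g j) =
        q * BN q (n + 1) (fun j => ((j + 1 : ℕ) : ℝ) * g (j + 1)) +
        (1 - q) * BN q (n + 1) (fun j => (j : ℝ) * g j) := rfl
    have h2 : BN q (n + 1) (fun j => ((j + 1 : ℕ) : ℝ) * g (j + 1)) =
        BN q (n + 1) (fun j => (j : ℝ) * g (j + 1)) + BN q (n + 1) (fun j => g (j + 1)) := by
      rw [← BN_add]
      congr 1
      funext j
      push_cast
      ring
    rw [h1, h2, ih, ih]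
    have h3 : BN q (n + 1) (fun j => g (j + 1)) =
        q * BN q n (fun j => g (j + 1 + 1)) + (1 - q) * BN q n (fun j => g (j + 1)) := rfl
    rw [h3]
    push_cast
    ring

/-- Stein's identity. -/
theorem BN_stein (n : ℕ) (g : ℕ → ℝ) :
    BN q (n + 1) (fun j => ((j : ℝ) - (n + 1) * q) * g j) =
      (n + 1) * q * (1 - q) * BN q n (fun j => g (j + 1) - g j) := by
  have h1 : BN q (n + 1) (fun j => ((j : ℝ) - (n + 1) * q) * g j) =
      BN q (n + 1) (fun j => (j : ℝ) * g j) + (-((n + 1) * q)) * BN q (n + 1) g := by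
    rw [← BN_mul, ← BN_add]
    congr 1
    funext j
    ring
  have h2 : BN q n (fun j => g (j + 1) - g j) = BN q n (fun j => g (j + 1)) + (-1) * BN q n g := by
    rw [← BN_mul, ← BN_add]
    congr 1
    funext j
    ring
  rw [h1, BN_id_mul, h2]
  have h3 : BN q (n + 1) g = q * BN q n (fun j => g (j + 1)) + (1 - q) * BN q n g := rfl
  rw [h3]
  ring

/-- The central moment. -/
noncomputable def cm (q : ℝ) (n k : ℕ) : ℝ := BN q n (fun j => ((j : ℝ) - n * q) ^ k)

theorem cm_zero (n : ℕ) : cm q n 0 = 1 := by
  unfold cm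
  simp only [pow_zero]
  exact BN_one n

theorem cm_recursion (n k : ℕ) : cm q (n + 1) (k + 1) = (n + 1) * q * (1 - q) *
    ∑ i ∈ range k, (k.choose i : ℝ) * ((1 - q) ^ (k - i) - (-q) ^ (k - i)) * cm q n i := by
  have h1 : cm q (n + 1) (k + 1) = BN q (n + 1) (fun j => ((j : ℝ) - (n + 1) * q) *
      ((j : ℝ) - (n + 1) * q) ^ k) := by
    unfold cm
    congr 1
    funext j
    push_cast
    rw [pow_succ]
    ring
  rw [h1, BN_stein (g := fun j => ((j : ℝ) - (n + 1) * q) ^ k)]
  congr 1
  have h2 : (fun j : ℕ => (((j + 1 : ℕ) : ℝ) - (n + 1) * q) ^ k - ((j : ℝ) - (n + 1) * q) ^ k) =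
      fun j : ℕ => ∑ i ∈ range k, (k.choose i : ℝ) * ((1 - q) ^ (k - i) - (-q) ^ (k - i)) *
        ((j : ℝ) - n * q) ^ i := by
    funext j
    have e1 : ((j + 1 : ℕ) : ℝ) - (n + 1) * q = ((j : ℝ) - n * q) + (1 - q) := by push_cast; ring
    have e2 : (j : ℝ) - (n + 1) * q = ((j : ℝ) - n * q) + (-q) := by ring
    rw [e1, e2, add_pow, add_pow, ← Finset.sum_sub_distrib, Finset.sum_range_succ]
    simp only [Nat.sub_self, pow_zero, sub_self, mul_one, add_zero]
    refine Finset.sum_congr rfl fun i _ => ?_
    ring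
  rw [h2, BN_sum]
  refine Finset.sum_congr rfl fun i _ => ?_
  rw [BN_mul]
  rfl

theorem abs_coeff (hq0 : 0 ≤ q) (hq1 : q ≤ 1) (j : ℕ) (hj : 1 ≤ j) :
    |(1 - q) ^ j - (-q) ^ j| ≤ 1 := by
  obtain ⟨i, rfl⟩ : ∃ i, j = i + 1 := ⟨j - 1, by omega⟩
  have h1 : |(1 - q) ^ (i + 1) - (-q) ^ (i + 1)| ≤ |(1 - q) ^ (i + 1)| + |(-q) ^ (i + 1)| :=
    abs_sub _ _
  have h2 : |(1 - q) ^ (i + 1)| ≤ 1 - q := by
    rw [abs_of_nonneg (by apply pow_nonneg; linarith), pow_succ]
    have : (1 - q) ^ i ≤ 1 := pow_le_one₀ (by linarith) (by linarith)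
    nlinarith
  have h3 : |(-q) ^ (i + 1)| ≤ q := by
    rw [abs_pow, abs_neg, abs_of_nonneg hq0, pow_succ]
    have : q ^ i ≤ 1 := pow_le_one₀ hq0 hq1
    nlinarith
  linarith

theorem cm_zero_succ (k : ℕ) : cm q 0 (k + 1) = 0 := by
  unfold cm
  simp [BN]

/-- Bound for the central moments. -/
theorem cm_bound (k : ℕ) : ∃ C : ℝ, 1 ≤ C ∧ ∀ q : ℝ, 0 ≤ q → q ≤ 1 → ∀ X : ℝ, 1 ≤ X → ∀ n : ℕ,
    (n : ℝ) * q ≤ X → |cm q n k| ≤ C * X ^ (k / 2) := by
  induction k using Nat.strong_induction_on with
  | _ k ih =>
    rcases k with _ | k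
    · refine ⟨1, le_rfl, fun q _ _ X _ n _ => ?_⟩
      rw [cm_zero]
      simp
    · choose! C hC1 hC using ih
      refine ⟨1 + ∑ i ∈ range k, (k.choose i : ℝ) * C i, ?_, ?_⟩
      · have : 0 ≤ ∑ i ∈ range k, (k.choose i : ℝ) * C i := Finset.sum_nonneg fun i hi => by
          have := hC1 i (by rw [Finset.mem_range] at hi; omega)
          positivity
        linarith
      · intro q hq0 hq1 X hX n hn
        have hS : 0 ≤ ∑ i ∈ range k, (k.choose i : ℝ) * C i := Finset.sum_nonneg fun i hi => by
          have := hC1 i (by rw [Finset.mem_range] at hi; omega)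
          positivity
        rcases n with _ | n
        · rw [cm_zero_succ, abs_zero]
          positivity
        · have hnq : (n : ℝ) * q ≤ X := by
            push_cast at hn
            nlinarith
          rcases k with _ | k
          · rw [cm_recursion]
            simp
          · rw [cm_recursion, abs_mul]
            have h1 : |((n : ℝ) + 1) * q * (1 - q)| ≤ X := by
              rw [abs_of_nonneg (by
                apply mul_nonneg (by positivity); linarith)]
              push_cast at hn
              have h2 : 0 ≤ ((n : ℝ) + 1) * q := by positivity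
              nlinarith
            have h2 : |∑ i ∈ range (k + 1), ((k + 1).choose i : ℝ) *
                ((1 - q) ^ (k + 1 - i) - (-q) ^ (k + 1 - i)) * cm q n i| ≤
                (∑ i ∈ range (k + 1), ((k + 1).choose i : ℝ) * C i) * X ^ (k / 2) := by
              refine (Finset.abs_sum_le_sum_abs _ _).trans ?_
              rw [Finset.sum_mul]
              refine Finset.sum_le_sum fun i hi => ?_
              rw [Finset.mem_range] at hi
              rw [abs_mul, abs_mul, abs_of_nonneg (by positivity :
                (0 : ℝ) ≤ ((k + 1).choose i : ℝ))]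
              have h3 := abs_coeff hq0 hq1 (k + 1 - i) (by omega)
              have h4 := hC i (by omega) q hq0 hq1 X hX n hnq
              have h5 : X ^ (i / 2) ≤ X ^ (k / 2) := pow_le_pow_right₀ hX (by omega)
              have h6 := hC1 i (by omega)
              calc _ ≤ ((k + 1).choose i : ℝ) * 1 * (C i * X ^ (k / 2)) := by
                    gcongr
                    exact h4.trans (by gcongr)
                _ = _ := by ring
            have h7 : (k + 1 + 1) / 2 = k / 2 + 1 := by omega
            rw [h7]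
            calc _ ≤ X * ((∑ i ∈ range (k + 1), ((k + 1).choose i : ℝ) * C i) * X ^ (k / 2)) := by
                  gcongr
              _ = (∑ i ∈ range (k + 1), ((k + 1).choose i : ℝ) * C i) * X ^ (k / 2 + 1) := by ring
              _ ≤ _ := by
                  gcongr
                  linarith

/-- Difference of powers. -/
theorem pow_near (a : ℕ) (X x y : ℝ) (hX : 1 ≤ X) (hx0 : 0 ≤ x) (hx : x ≤ X) (hy0 : 0 ≤ y)
    (hy : y ≤ X) (D : ℝ) (hD : |x - y| ≤ D) : |x ^ a - y ^ a| ≤ a * X ^ (a - 1) * D := by
  have hD0 : 0 ≤ D := (abs_nonneg _).trans hD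
  induction a with
  | zero => simp
  | succ a ih =>
    have e : x ^ (a + 1) - y ^ (a + 1) = x * (x ^ a - y ^ a) + (x - y) * y ^ a := by ring
    rw [e]
    have h1 := abs_add_le (x * (x ^ a - y ^ a)) ((x - y) * y ^ a)
    have h2 : |x * (x ^ a - y ^ a)| ≤ X * (a * X ^ (a - 1) * D) := by
      rw [abs_mul, abs_of_nonneg hx0]
      gcongr
    have h3 : |(x - y) * y ^ a| ≤ D * X ^ a := by
      rw [abs_mul, abs_of_nonneg (by positivity : 0 ≤ y ^ a)]
      gcongr
    have h4 : X * (a * X ^ (a - 1) * D) = a * X ^ a * D := by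
      rcases a with _ | a
      · simp
      · simp only [Nat.add_sub_cancel]
        ring
    rw [h4] at h2
    simp only [Nat.add_sub_cancel]
    push_cast
    nlinarith

/-- The product of the odd numbers below `2 a`. -/
def df : ℕ → ℕ
  | 0 => 1
  | a + 1 => (2 * a + 1) * df a

/-- The main term of the even central moments. -/
theorem cm_main (a : ℕ) : ∃ C : ℝ, 0 ≤ C ∧ ∀ q : ℝ, 0 ≤ q → q ≤ 1 → ∀ X : ℝ, 1 ≤ X → ∀ n : ℕ,
    (n : ℝ) * q ≤ X → |cm q n (2 * a) - df a * (n * q * (1 - q)) ^ a| * X ≤ C * X ^ a := by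
  induction a with
  | zero =>
    refine ⟨0, le_rfl, fun q _ _ X _ n _ => ?_⟩
    rw [mul_zero, cm_zero]
    simp [df]
  | succ a ih =>
    obtain ⟨C, hC0, hC⟩ := ih
    choose B hB1 hB using cm_bound
    set S : ℝ := ∑ i ∈ range (2 * a), ((2 * a + 1).choose i : ℝ) * B i with hS
    have hS0 : 0 ≤ S := Finset.sum_nonneg fun i _ => by
      have := hB1 i
      positivity
    refine ⟨(2 * a + 1) * C + S + (2 * a + 1) * df a * a, by positivity, ?_⟩
    intro q hq0 hq1 X hX n hn
    have hX0 : 0 < X := by linarith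
    rcases n with _ | n
    · have h1 : cm q 0 (2 * (a + 1)) = 0 := cm_zero_succ (2 * a + 1)
      rw [h1]
      simp
      positivity
    · have hn' := hn
      push_cast at hn'
      have hnq : (n : ℝ) * q ≤ X := by nlinarith
      have hnq0 : 0 ≤ (n : ℝ) * q := by positivity
      have e1 : 2 * (a + 1) = (2 * a + 1) + 1 := by ring
      rw [e1, cm_recursion, Finset.sum_range_succ]
      have e2 : 2 * a + 1 - 2 * a = 1 := by omega
      have e3 : (2 * a + 1).choose (2 * a) = 2 * a + 1 := Nat.choose_succ_self_right (2 * a)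
      rw [e2, e3]
      set Sg := ∑ i ∈ range (2 * a), ((2 * a + 1).choose i : ℝ) *
        ((1 - q) ^ (2 * a + 1 - i) - (-q) ^ (2 * a + 1 - i)) * cm q n i with hSg
      set V := ((n : ℝ) + 1) * q * (1 - q) with hV
      set v := (n : ℝ) * q * (1 - q) with hv
      have hV0 : 0 ≤ V := by
        rw [hV]; apply mul_nonneg (by positivity); linarith
      have hv0 : 0 ≤ v := by
        rw [hv]; apply mul_nonneg (by positivity); linarith
      have hVX : V ≤ X := by
        have : 0 ≤ ((n : ℝ) + 1) * q := by positivity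
        nlinarith
      have hvX : v ≤ X := by nlinarith
      have hVv : |V - v| ≤ 1 := by
        have : V - v = q * (1 - q) := by rw [hV, hv]; ring
        rw [this, abs_of_nonneg (by nlinarith)]
        nlinarith
      have hSg1 : |Sg| * X ≤ S * X ^ a := by
        rw [hSg, hS]
        rcases Nat.eq_zero_or_pos a with h0 | h0
        · subst h0; simp
        · have h1 : |∑ i ∈ range (2 * a), ((2 * a + 1).choose i : ℝ) *
              ((1 - q) ^ (2 * a + 1 - i) - (-q) ^ (2 * a + 1 - i)) * cm q n i| ≤
              (∑ i ∈ range (2 * a), ((2 * a + 1).choose i : ℝ) * B i) * X ^ (a - 1) := by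
            refine (Finset.abs_sum_le_sum_abs _ _).trans ?_
            rw [Finset.sum_mul]
            refine Finset.sum_le_sum fun i hi => ?_
            rw [Finset.mem_range] at hi
            rw [abs_mul, abs_mul, abs_of_nonneg (by positivity :
              (0 : ℝ) ≤ ((2 * a + 1).choose i : ℝ))]
            have h3 := abs_coeff hq0 hq1 (2 * a + 1 - i) (by omega)
            have h4 := hB i q hq0 hq1 X hX n hnq
            have h5 : X ^ (i / 2) ≤ X ^ (a - 1) := pow_le_pow_right₀ hX (by omega)
            have h6 := hB1 i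
            calc _ ≤ ((2 * a + 1).choose i : ℝ) * 1 * (B i * X ^ (a - 1)) := by
                  gcongr
                  exact h4.trans (by gcongr)
              _ = _ := by ring
          have h2 : X ^ a = X ^ (a - 1) * X := by
            rw [← pow_succ]; congr 1; omega
          rw [h2, ← mul_assoc]
          gcongr
      have hpow : |V ^ a - v ^ a| * X ≤ a * X ^ a := by
        have h1 := pow_near a X V v hX hV0 hVX hv0 hvX 1 hVv
        rcases Nat.eq_zero_or_pos a with h0 | h0
        · subst h0; simp
        · have h2 : X ^ a = X ^ (a - 1) * X := by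
            rw [← pow_succ]; congr 1; omega
          rw [h2, ← mul_assoc]
          gcongr
          linarith
      have hmain := hC q hq0 hq1 X hX n hnq
      rw [← hv] at hmain
      have hcast : (((n + 1 : ℕ) : ℝ) * q * (1 - q)) = V := by rw [hV]; push_cast; ring
      rw [hcast]
      have e4 : V * (Sg + ((2 * a + 1 : ℕ) : ℝ) * ((1 - q) ^ 1 - (-q) ^ 1) * cm q n (2 * a)) -
          (df (a + 1) : ℝ) * V ^ (a + 1) =
          V * Sg + (2 * a + 1) * V * (cm q n (2 * a) - df a * v ^ a) +
            (2 * a + 1) * df a * V * (v ^ a - V ^ a) := by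
        simp only [df]
        push_cast
        ring
      rw [e4]
      have i1 := abs_add_le (V * Sg + (2 * a + 1) * V * (cm q n (2 * a) - df a * v ^ a))
        ((2 * a + 1) * df a * V * (v ^ a - V ^ a))
      have i2 := abs_add_le (V * Sg) ((2 * a + 1) * V * (cm q n (2 * a) - df a * v ^ a))
      have j1 : |V * Sg| * X ≤ X * (S * X ^ a) := by
        rw [abs_mul, abs_of_nonneg hV0, mul_assoc]
        gcongr
      have j2 : |(2 * a + 1) * V * (cm q n (2 * a) - df a * v ^ a)| * X ≤
          (2 * a + 1) * X * (C * X ^ a) := by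
        rw [abs_mul, abs_of_nonneg (by positivity : (0 : ℝ) ≤ (2 * a + 1) * V), mul_assoc]
        gcongr
      have j3 : |(2 * a + 1) * df a * V * (v ^ a - V ^ a)| * X ≤
          (2 * a + 1) * df a * X * (a * X ^ a) := by
        rw [abs_mul, abs_of_nonneg (by positivity : (0 : ℝ) ≤ (2 * a + 1) * df a * V), mul_assoc,
          abs_sub_comm]
        gcongr
      have e5 : ((2 * a + 1) * C + S + (2 * a + 1) * df a * a) * X ^ (a + 1) =
          X * (S * X ^ a) + (2 * a + 1) * X * (C * X ^ a) +
            (2 * a + 1) * df a * X * (a * X ^ a) := by ring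
      rw [e5]
      calc _ ≤ (|V * Sg| + |(2 * a + 1) * V * (cm q n (2 * a) - df a * v ^ a)| +
            |(2 * a + 1) * df a * V * (v ^ a - V ^ a)|) * X := by
              gcongr
              linarith
        _ ≤ _ := by
            rw [add_mul, add_mul]
            linarith

end Pool.Agent.Y722.TP
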