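import Pool.Agent.Y722.TP.Mom

/-!
# Tensor powers of the varying cohomology, times a fixed motive
-/

set_option autoImplicit false
set_option linter.unusedSectionVars false

namespace Pool.Agent.Y722.TP

open Finset Pool.Agent.Y722.HS Pool.Agent.Y722.LS Pool.Agent.Y722.PC Pool.Agent.Y722.TM

variable {n : ℕ} {ι : Type} [Fintype ι] [DecidableEq ι]

/-- `γ p j`, `j < b`, are the eigenvalues of Frobenius at `p` on `T^{⊗ k} ⊗ N`, zeros added if
necessary.  Here `N` is the motive of weight `wt` with the Frobenius eigenvalues `β p i`, `i < r`, and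
`T` the part of the middle cohomology of the hypersurface `X : ∑ c i f i = 0` in `ℙⁿ` for which the
trace of Frobenius is `(-1)^{n-1} (#X(𝔽_p) - u p)` at the primes at which `X` is smooth. -/
structure IsFrobP (f : ι → MvPolynomial (Fin (n + 1)) ℤ) (u : ℕ → ℝ) (k : ℕ) (wt : ℝ) {r : ℕ}
    (β : ℕ → Fin r → ℂ) (b : ℕ) (c : ι → ℤ) (γ : ℕ → Fin b → ℂ) : Prop where
  bound : ∀ p : ℕ, p.Prime → ∀ j, ‖γ p j‖ ≤ (p : ℝ) ^ ((k * ((n : ℝ) - 1) + wt) / 2)
  trace : ∀ (p : ℕ) [Fact p.Prime],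
    IsSmooth (MvPolynomial.map (algebraMap (ZMod p) (AlgebraicClosure (ZMod p)))
      (lform f (red p c))) →
      ∑ j, γ p j = ((-1) ^ (n - 1) * ((xn f p (red p c) - u p : ℝ) : ℂ)) ^ k * ∑ i, β p i

open Classical in
/-- The mean of the power of the normalised trace. -/
noncomputable def mu (f : ι → MvPolynomial (Fin (n + 1)) ℤ) (u : ℕ → ℝ) (k p : ℕ) : ℝ :=
  if h : p.Prime then
    haveI := Fact.mk h
    EM p (fun c : ι → ZMod p => yy f u p c ^ k)
  else 0

theorem mu_eq (f : ι → MvPolynomial (Fin (n + 1)) ℤ) (u : ℕ → ℝ) (k p : ℕ) [hp : Fact p.Prime] :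
    mu f u k p = EM p (fun c : ι → ZMod p => yy f u p c ^ k) := by
  unfold mu
  rw [dif_pos hp.out]

/-- The power of the normalised trace without its mean. -/
noncomputable def NP (f : ι → MvPolynomial (Fin (n + 1)) ℤ) (u : ℕ → ℝ) (k p0 p : ℕ)
    (c : ι → ZMod p) : ℝ :=
  if p < p0 then 0 else (yy f u p c ^ k - mu f u k p) / p

/-- The mean. -/
noncomputable def rP (f : ι → MvPolynomial (Fin (n + 1)) ℤ) (u : ℕ → ℝ) (k p0 p : ℕ) : ℝ :=
  if p < p0 then 0 else mu f u k p / p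

section
variable {f : ι → MvPolynomial (Fin (n + 1)) ℤ} {p0 k d : ℕ} {u : ℕ → ℝ} {C0 : ℝ}

theorem EM_sub_mean (p : ℕ) [NeZero p] (g : (ι → ZMod p) → ℝ) :
    EM p (fun c => g c - EM p g) = 0 := by
  have h1 : (fun c => g c - EM p g) = fun c => g c + (-EM p g) := by
    funext c; ring
  rw [h1, EM_add, EM_const, add_neg_cancel]

theorem EM_sub_mean_sq (p : ℕ) [NeZero p] (g : (ι → ZMod p) → ℝ) :
    EM p (fun c => (g c - EM p g) ^ 2) ≤ EM p (fun c => g c ^ 2) := by
  have h1 : (fun c => (g c - EM p g) ^ 2) =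
      fun c => g c ^ 2 + (-(2 * EM p g) * g c + EM p g ^ 2) := by
    funext c; ring
  have h2 : EM p (fun c => g c) = EM p g := rfl
  rw [h1, EM_add, EM_add, EM_mul, EM_const, h2]
  nlinarith [sq_nonneg (EM p g)]

theorem famP (P : MvPolynomial ι ℤ) (c0 : ι → ℤ) (hP : MvPolynomial.eval c0 P ≠ 0) {K : ℝ}
    (hK : 0 ≤ K)
    (hm : ∀ (p : ℕ) [Fact p.Prime], p0 ≤ p →
      EM p (fun c : ι → ZMod p => (yy f u p c ^ k) ^ 2) ≤ K) :
    Fam (1 + K + p0 + (P.totalDegree + |(MvPolynomial.eval c0 P : ℝ)|))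
      (NP f u k p0) (BT P p0) := by
  set A : ℝ := 1 + K + p0 + (P.totalDegree + |(MvPolynomial.eval c0 P : ℝ)|) with hA
  have hp00 : (0 : ℝ) ≤ p0 := by positivity
  have hdeg0 : (0 : ℝ) ≤ P.totalDegree := by positivity
  have hev0 : (0 : ℝ) ≤ |(MvPolynomial.eval c0 P : ℝ)| := abs_nonneg _
  have hA0 : 0 ≤ A := by linarith
  refine ⟨by linarith, ?_, ?_, ?_, ?_, ?_⟩
  · intro p hpF
    have hp := hpF.out
    have hp0 : (0 : ℝ) < p := by exact_mod_cast hp.pos
    by_cases hlt : p < p0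
    · have h1 : (fun c : ι → ZMod p => NP f u k p0 p c ^ 2) = fun _ => 0 := by
        funext c; simp [NP, hlt]
      rw [h1, EM_const]
      positivity
    · have h1 : (fun c : ι → ZMod p => NP f u k p0 p c ^ 2) =
          fun c => (1 / (p : ℝ) ^ 2) * (yy f u p c ^ k -
            EM p (fun c : ι → ZMod p => yy f u p c ^ k)) ^ 2 := by
        funext c
        rw [NP, if_neg hlt, mu_eq, div_pow]
        ring
      rw [h1, EM_mul]
      have h2 := EM_sub_mean_sq (ι := ι) p (fun c => yy f u p c ^ k)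
      have h3 := hm p (by omega)
      calc _ ≤ 1 / (p : ℝ) ^ 2 * A := by
            gcongr
            linarith
        _ = _ := by ring
  · intro p hpF
    have hp := hpF.out
    have hp0 : (0 : ℝ) < p := by exact_mod_cast hp.pos
    by_cases hlt : p < p0
    · have h1 : (fun c : ι → ZMod p => NP f u k p0 p c) = fun _ => 0 := by
        funext c; simp [NP, hlt]
      rw [h1, EM_const, abs_zero]
      positivity
    · have h1 : (fun c : ι → ZMod p => NP f u k p0 p c) =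
          fun c => (1 / (p : ℝ)) * (yy f u p c ^ k -
            EM p (fun c : ι → ZMod p => yy f u p c ^ k)) := by
        funext c
        rw [NP, if_neg hlt, mu_eq]
        ring
      rw [h1, EM_mul, EM_sub_mean (ι := ι) p (fun c => yy f u p c ^ k), mul_zero, abs_zero]
      positivity
  · intro p c
    rcases BT_cases P p0 p c with h | h <;> rw [h]
    norm_num
  · intro p c
    rcases BT_cases P p0 p c with h | h <;> rw [h]
    norm_num
  · intro p hpF
    have hp := hpF.out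
    have hp0 : (0 : ℝ) < p := by exact_mod_cast hp.pos
    by_cases hlt : p < p0
    · have h1 : (fun c : ι → ZMod p => BT P p0 p c) = fun _ => 1 := by
        funext c; simp [BT, hlt]
      rw [h1, EM_const, le_div_iff₀ hp0, one_mul]
      have : (p : ℝ) ≤ p0 := by exact_mod_cast hlt.le
      linarith
    · have h1 : (fun c : ι → ZMod p => BT P p0 p c) = fun c => BZ P p c := by
        funext c; simp [BT, hlt]
      rw [h1]
      refine (EM_BZ P c0 hP p).trans ?_
      gcongr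
      linarith

theorem tracesP (hn : 1 ≤ n) {P : MvPolynomial ι ℤ}
    (hP : ∀ (K : Type) [Field K] (c : ι → K), MvPolynomial.eval₂ (Int.castRingHom K) c P ≠ 0 →
      IsSmooth (lform f c)) {wt : ℝ} {r : ℕ} {β : ℕ → Fin r → ℂ} {b : ℕ} {c : ι → ℤ}
    {γ : ℕ → Fin b → ℂ} (h : IsFrobP f u k wt β b c γ) :
    TracesW ((k * ((n : ℝ) - 1) + wt) / 2) b (NP f u k p0) (BT P p0) (rP f u k p0)
      (fun p => ((-1) ^ (n - 1)) ^ k * (∑ i, β p i) * (((p : ℝ) ^ (-(wt / 2)) : ℝ) : ℂ)) c γ := by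
  refine ⟨h.bound, fun p hp hb => ?_⟩
  have := Fact.mk hp
  have hp0 : (0 : ℝ) < p := by exact_mod_cast hp.pos
  have hlt : ¬ p < p0 := by
    intro hlt
    rw [BT, if_pos hlt] at hb
    norm_num at hb
  rw [BT, if_neg hlt, BZ] at hb
  have hb2 : MvPolynomial.eval₂ (Int.castRingHom (ZMod p)) (red p c) P ≠ 0 := by
    intro h0
    rw [if_pos h0] at hb
    norm_num at hb
  have hsm : IsSmooth (MvPolynomial.map (algebraMap (ZMod p) (AlgebraicClosure (ZMod p)))
      (lform f (red p c))) := by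
    rw [map_lform]
    apply hP
    have h2 : MvPolynomial.eval₂ (Int.castRingHom (AlgebraicClosure (ZMod p)))
        (fun i => algebraMap (ZMod p) (AlgebraicClosure (ZMod p)) (red p c i)) P =
        algebraMap (ZMod p) (AlgebraicClosure (ZMod p))
          (MvPolynomial.eval₂ (Int.castRingHom (ZMod p)) (red p c) P) := by
      rw [MvPolynomial.eval₂_comp_left, RingHom.ext_int
        ((algebraMap (ZMod p) (AlgebraicClosure (ZMod p))).comp (Int.castRingHom (ZMod p)))
        (Int.castRingHom (AlgebraicClosure (ZMod p)))]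
      rfl
    rw [h2]
    intro h3
    exact hb2 ((map_eq_zero _).mp h3)
  rw [h.trace p hsm]
  set s : ℝ := Real.sqrt ((p : ℝ) ^ (n - 1)) with hs
  have hs0 : 0 < s := Real.sqrt_pos.mpr (by positivity)
  have e1 : xn f p (red p c) - u p = yy f u p (red p c) * s := by
    rw [yy, ← hs, div_mul_cancel₀ _ hs0.ne']
  have e2 : NP f u k p0 p (red p c) + rP f u k p0 p = yy f u p (red p c) ^ k / p := by
    rw [NP, rP, if_neg hlt, if_neg hlt]
    ring
  have e3 : (p : ℝ) ^ ((k * ((n : ℝ) - 1) + wt) / 2 + 1) = s ^ k * p * (p : ℝ) ^ (wt / 2) := by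
    have h1 : s ^ k = (p : ℝ) ^ (k * ((n : ℝ) - 1) / 2) := by
      rw [hs, Real.sqrt_eq_rpow, ← Real.rpow_natCast, ← Real.rpow_natCast, ← Real.rpow_mul hp0.le,
        ← Real.rpow_mul hp0.le, Nat.cast_sub hn]
      congr 1
      push_cast
      ring
    rw [h1, mul_right_comm, ← Real.rpow_add hp0, ← Real.rpow_add_one hp0.ne']
    congr 1
    ring
  have e4 : (((p : ℝ) ^ (-(wt / 2)) : ℝ) : ℂ) * (((p : ℝ) ^ (wt / 2) : ℝ) : ℂ) = 1 := by
    rw [← Complex.ofReal_mul, ← Real.rpow_add hp0, neg_add_cancel, Real.rpow_zero,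
      Complex.ofReal_one]
  have e5 : (yy f u p (red p c) ^ k / p) * (s ^ k * p * (p : ℝ) ^ (wt / 2)) =
      (yy f u p (red p c) * s) ^ k * (p : ℝ) ^ (wt / 2) := by
    rw [mul_pow]
    field_simp
  rw [e2, e3, e5, e1]
  simp only [Complex.ofReal_mul, Complex.ofReal_pow]
  rw [mul_pow]
  linear_combination (-(((-1) ^ (n - 1)) ^ k * (∑ i, β p i) *
    ((yy f u p (red p c) : ℂ) * (s : ℂ)) ^ k)) * e4

theorem rP_near {K : ℝ} (hK : 0 ≤ K)
    (hm : ∀ (p : ℕ) [Fact p.Prime], p0 ≤ p → |mu f u k p - gm k| ≤ K / Real.sqrt p)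
    (p : ℕ) (hp : p.Prime) :
    |rP f u k p0 p - gm k / p| ≤ (K + gm k * p0) * (1 / (p : ℝ) ^ ((3 : ℝ) / 2)) := by
  have := Fact.mk hp
  have hp0 : (0 : ℝ) < p := by exact_mod_cast hp.pos
  have hp1 : (1 : ℝ) ≤ p := by exact_mod_cast hp.one_lt.le
  have h32 : (p : ℝ) ^ ((3 : ℝ) / 2) = p * Real.sqrt p := by
    rw [Real.sqrt_eq_rpow]
    conv_rhs => rw [← Real.rpow_one (p : ℝ)]
    rw [Real.rpow_one, ← Real.rpow_one_add' hp0.le (by norm_num)]
    norm_num
  have hsp0 : 0 < Real.sqrt p := Real.sqrt_pos.mpr hp0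
  have hg : (0 : ℝ) ≤ (gm k : ℝ) := by positivity
  have hp00 : (0 : ℝ) ≤ p0 := by positivity
  rw [h32, mul_one_div, le_div_iff₀ (by positivity)]
  unfold rP
  split_ifs with hlt
  · rw [zero_sub, abs_neg, abs_of_nonneg (by positivity)]
    have h1 : Real.sqrt p ≤ p0 := by
      have h2 : Real.sqrt p ≤ p := by
        rw [Real.sqrt_le_left (by linarith)]
        nlinarith
      have h3 : (p : ℝ) ≤ p0 := by exact_mod_cast hlt.le
      linarith
    calc (gm k : ℝ) / p * (p * Real.sqrt p) = gm k * Real.sqrt p := by field_simp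
      _ ≤ gm k * p0 := by gcongr
      _ ≤ _ := by linarith
  · have h1 := hm p (by omega)
    have e : mu f u k p / p - gm k / p = (mu f u k p - gm k) / p := by ring
    rw [e, abs_div, abs_of_pos hp0]
    calc |mu f u k p - gm k| / p * (p * Real.sqrt p) ≤
          (K / Real.sqrt p) / p * (p * Real.sqrt p) := by gcongr
      _ = K := by field_simp
      _ ≤ _ := by nlinarith

/-- **Tensor powers of the varying cohomology of the members of a linear system, times a fixed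
motive.** -/
theorem powers (hn : 2 ≤ n) (hd : 1 ≤ d) (f : ι → MvPolynomial (Fin (n + 1)) ℤ)
    (hf : ∀ i, (f i).IsHomogeneous d) (c0 : ι → ℤ)
    (hs : IsSmooth (lform f (fun i => (c0 i : ℂ)))) (p0 k : ℕ)
    (hsep : ∀ p : ℕ, p.Prime → p0 ≤ p → SepK (2 * k) f p) (u : ℕ → ℝ) (C0 : ℝ)
    (hZ : ∀ p : ℕ, p.Prime → p0 ≤ p → zn f p ≤ C0 * (p : ℝ) ^ (((n : ℝ) - 1) / 2))
    (hu : ∀ p : ℕ, p.Prime → p0 ≤ p →
      |zn f p + ((p : ℝ) ^ n - 1) / ((p : ℝ) - 1) - u p| ≤ C0 * (p : ℝ) ^ ((n : ℝ) / 2 - 1))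
    (r b : ℕ) : ∃ C : ℝ, ∀ (wt : ℝ) (β : ℕ → Fin r → ℂ),
      (∀ p : ℕ, p.Prime → ∀ i, ‖β p i‖ ≤ (p : ℝ) ^ (wt / 2)) →
      ∀ H : ℕ, 2 ≤ H → ∀ T : ℝ, 0 ≤ T → ∀ S ⊆ box ι H, ∀ (γ : (ι → ℤ) → ℕ → Fin b → ℂ)
      (ε t : (ι → ℤ) → ℝ), (∀ c ∈ S, IsFrobP f u k wt β b c (γ c)) →
      (∀ c ∈ S, 1 / Real.log H ≤ ε c ∧ ε c ≤ 1) → (∀ c ∈ S, |t c| ≤ T) →
      ∑ c ∈ S, (Real.log ‖LP (γ c) ((k * ((n : ℂ) - 1) + wt) / 2 + 1 + ε c + t c * Complex.I)‖ -
        gm k * Real.log ‖LP β ((wt : ℂ) / 2 + 1 + ε c + t c * Complex.I)‖) ^ 2 ≤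
        C * (1 + T) * (box ι H).card := by
  obtain ⟨P, hP0, hP⟩ := exists_disc f hd hf c0 hs
  have hC0' : 0 ≤ |C0| := abs_nonneg _
  have hle : ∀ x : ℝ, 0 ≤ x → C0 * x ≤ |C0| * x := fun x hx =>
    mul_le_mul_of_nonneg_right (le_abs_self _) hx
  obtain ⟨K1, hK10, hK1⟩ := mom_norm k |C0| hC0'
  obtain ⟨K2, hK20, hK2⟩ := mom_norm (2 * k) |C0| hC0'
  have hsepk : ∀ p : ℕ, p.Prime → p0 ≤ p → SepK k f p := by
    intro p hp hge x Y hY
    exact hsep p hp hge x Y (by omega)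
  have hmk : ∀ (p : ℕ) [Fact p.Prime], p0 ≤ p → |mu f u k p - gm k| ≤ K1 / Real.sqrt p := by
    intro p hpF hge
    rw [mu_eq]
    exact hK1 n d ι f p u hn hf (hsepk p hpF.out hge)
      ((hZ p hpF.out hge).trans (hle _ (by positivity)))
      ((hu p hpF.out hge).trans (hle _ (by positivity)))
  have hm2 : ∀ (p : ℕ) [Fact p.Prime], p0 ≤ p →
      EM p (fun c : ι → ZMod p => (yy f u p c ^ k) ^ 2) ≤ K2 + gm (2 * k) := by
    intro p hpF hge
    have h1 : (fun c : ι → ZMod p => (yy f u p c ^ k) ^ 2) = fun c => yy f u p c ^ (2 * k) := by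
      funext c
      rw [← pow_mul, mul_comm]
    rw [h1]
    have h2 := hK2 n d ι f p u hn hf (hsep p hpF.out hge)
      ((hZ p hpF.out hge).trans (hle _ (by positivity)))
      ((hu p hpF.out hge).trans (hle _ (by positivity)))
    have hp1 : (1 : ℝ) ≤ p := by exact_mod_cast hpF.out.one_lt.le
    have h3 : K2 / Real.sqrt p ≤ K2 := div_le_self hK20 (by rw [Real.one_le_sqrt]; exact hp1)
    have h4 := (abs_le.mp h2).2
    linarith
  have hfam := famP (f := f) (u := u) (k := k) (p0 := p0) P c0 hP0 (K := K2 + gm (2 * k))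
    (by positivity) hm2
  have hρ := rP_near (f := f) (u := u) (k := k) (p0 := p0) hK10 hmk
  set Kρ : ℝ := K1 + gm k * p0 with hKρ
  have hKρ0 : 0 ≤ Kρ := by positivity
  have hρ' : ∀ p : ℕ, p.Prime → |rP f u k p0 p| ≤ (Kρ + gm k) / p := by
    intro p hp
    have hp0 : (0 : ℝ) < p := by exact_mod_cast hp.pos
    have hp1 : (1 : ℝ) ≤ p := by exact_mod_cast hp.one_lt.le
    have h1 := hρ p hp
    have h2 : Kρ * (1 / (p : ℝ) ^ ((3 : ℝ) / 2)) ≤ Kρ / p := by
      rw [mul_one_div]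
      gcongr
      have h1 : (p : ℝ) ^ (1 : ℝ) ≤ (p : ℝ) ^ ((3 : ℝ) / 2) :=
        Real.rpow_le_rpow_of_exponent_le hp1 (by norm_num)
      rwa [Real.rpow_one] at h1
    have h3 := abs_sub_abs_le_abs_sub (rP f u k p0 p) (gm k / p)
    rw [abs_of_nonneg (by positivity : (0 : ℝ) ≤ (gm k : ℝ) / p)] at h3
    rw [add_div]
    linarith
  obtain ⟨C, hC⟩ := assembleW (r := (r : ℝ) + 1) hfam (fun p _ c => BT_cases P p0 p c)
    (by positivity : 0 ≤ Kρ + (gm k : ℝ)) hρ'
    (by have : (0 : ℝ) ≤ r := by positivity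
        linarith) (((r : ℝ) + 1) * (Kρ * SS) + gm k * (r * SS + 128 * r)) b
  refine ⟨C, fun wt β hβ H hH T hT S hS γ ε t hγ hε ht => ?_⟩
  set w : ℕ → ℂ := fun p => ((-1) ^ (n - 1)) ^ k * (∑ i, β p i) *
    (((p : ℝ) ^ (-(wt / 2)) : ℝ) : ℂ) with hwdef
  have hw : ∀ p : ℕ, p.Prime → ‖w p‖ ≤ (r : ℝ) + 1 := by
    intro p hp
    have hp0 : (0 : ℝ) < p := by exact_mod_cast hp.pos
    rw [hwdef]
    simp only [norm_mul, norm_pow, norm_neg, norm_one, one_pow, one_mul, Complex.norm_real]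
    rw [Real.norm_of_nonneg (by positivity)]
    have h3 : ‖∑ i, β p i‖ ≤ r * (p : ℝ) ^ (wt / 2) := by
      refine (norm_sum_le _ _).trans ?_
      refine (Finset.sum_le_sum fun i _ => hβ p hp i).trans ?_
      rw [Finset.sum_const, nsmul_eq_mul, Finset.card_univ, Fintype.card_fin]
    calc _ ≤ r * (p : ℝ) ^ (wt / 2) * (p : ℝ) ^ (-(wt / 2)) := by gcongr
      _ = r := by
          rw [mul_assoc, ← Real.rpow_add hp0, add_neg_cancel, Real.rpow_zero, mul_one]
      _ ≤ _ := by linarith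
  have h1 := hC ((k * ((n : ℝ) - 1) + wt) / 2) w hw
    (fun ε t => gm k * Real.log ‖LP β ((wt : ℂ) / 2 + 1 + ε + t * Complex.I)‖) (by
    intro ε t hε hε1 y hy hyε
    have h2 := log_LP_at β (wt / 2) ε t hε hε1 hβ y hy
    have h16 : 16 / (ε * Real.log (y + 1)) ≤ 64 := by
      rw [div_le_iff₀ (by linarith)]
      linarith
    have h3 : 2 * (r : ℝ) * (16 / (ε * Real.log (y + 1))) ≤ 128 * r := by
      calc _ ≤ 2 * (r : ℝ) * 64 := by gcongr
        _ = _ := by ring
    have e0 : (((wt / 2 : ℝ) : ℂ) + 1 + ε + t * Complex.I) =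
        (wt : ℂ) / 2 + 1 + ε + t * Complex.I := by push_cast; ring
    rw [e0] at h2
    set L := Real.log ‖LP β ((wt : ℂ) / 2 + 1 + ε + t * Complex.I)‖
    set S1 := ∑ p ∈ PR y, ((∑ i, β p i) * (p : ℂ) ^ (-((wt : ℂ) / 2 + 1 + ε + t * Complex.I))).re
      with hS1
    have h4 : |MS (rP f u k p0) w y ε t - gm k * S1| ≤ ((r : ℝ) + 1) * (Kρ * SS) := by
      rw [MS, hS1, Finset.mul_sum, ← Finset.sum_sub_distrib]
      refine (Finset.abs_sum_le_sum_abs _ _).trans ?_
      have h5 : ∀ p ∈ PR y, |(w p * (p : ℂ) ^ (-((ε : ℂ) + t * Complex.I))).re * rP f u k p0 p -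
          gm k * ((∑ i, β p i) * (p : ℂ) ^ (-((wt : ℂ) / 2 + 1 + ε + t * Complex.I))).re| ≤
          ((r : ℝ) + 1) * (Kρ * (1 / (p : ℝ) ^ ((3 : ℝ) / 2))) := by
        intro p hp
        have hpp := (mem_PR.mp hp).2
        have hp0 : (0 : ℝ) < p := by exact_mod_cast hpp.pos
        have hp1 : (1 : ℝ) ≤ p := by exact_mod_cast hpp.one_lt.le
        have hpc : (p : ℂ) ≠ 0 := by exact_mod_cast hpp.ne_zero
        have hcast : ((p : ℝ) : ℂ) = (p : ℂ) := by push_cast; rfl
        have hnε : ‖(p : ℂ) ^ (-((ε : ℂ) + t * Complex.I))‖ ≤ 1 := by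
          rw [← hcast, Complex.norm_cpow_eq_rpow_re_of_pos hp0]
          apply Real.rpow_le_one_of_one_le_of_nonpos hp1
          simp [hε.le]
        have hg : (gm k : ℝ) * ((∑ i, β p i) *
            (p : ℂ) ^ (-((wt : ℂ) / 2 + 1 + ε + t * Complex.I))).re =
            (w p * (p : ℂ) ^ (-((ε : ℂ) + t * Complex.I))).re * (gm k / p) := by
          rcases Nat.even_or_odd k with hk | hk
          · have hsign : (((-1 : ℂ)) ^ (n - 1)) ^ k = 1 := by
              rw [← pow_mul, mul_comm, pow_mul, hk.neg_one_pow, one_pow]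
            have h6 : (∑ i, β p i) * (p : ℂ) ^ (-((wt : ℂ) / 2 + 1 + ε + t * Complex.I)) =
                (w p * (p : ℂ) ^ (-((ε : ℂ) + t * Complex.I))) * (((1 / (p : ℝ) : ℝ)) : ℂ) := by
              rw [hwdef]
              simp only
              rw [hsign, one_mul]
              have h7 : (p : ℂ) ^ (-((wt : ℂ) / 2 + 1 + ε + t * Complex.I)) =
                  (((p : ℝ) ^ (-(wt / 2)) : ℝ) : ℂ) * (p : ℂ) ^ (-((ε : ℂ) + t * Complex.I)) *
                    (((1 / (p : ℝ) : ℝ)) : ℂ) := by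
                rw [Complex.ofReal_cpow hp0.le, hcast, one_div, Complex.ofReal_inv, hcast,
                  ← Complex.cpow_neg_one, ← Complex.cpow_add _ _ hpc, ← Complex.cpow_add _ _ hpc]
                congr 1
                push_cast
                ring
              rw [h7]
              ring
            rw [h6, Complex.re_mul_ofReal]
            ring
          · have h6 : gm k = 0 := by
              unfold gm
              rw [if_neg (by rwa [Nat.not_even_iff_odd])]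
            rw [h6]
            simp
        rw [hg, ← mul_sub, abs_mul]
        refine mul_le_mul ?_ (hρ p hpp) (abs_nonneg _) (by positivity)
        refine (Complex.abs_re_le_norm _).trans ?_
        rw [norm_mul]
        calc _ ≤ ((r : ℝ) + 1) * 1 :=
              mul_le_mul (hw p hpp) hnε (norm_nonneg _) (by positivity)
          _ = _ := mul_one _
      refine (Finset.sum_le_sum h5).trans ?_
      rw [← Finset.mul_sum, ← Finset.mul_sum]
      have h3 := sum_le_SS (PR y)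
      gcongr
    have h5 : MS (rP f u k p0) w y ε t - gm k * L =
        (MS (rP f u k p0) w y ε t - gm k * S1) - gm k * (L - S1) := by ring
    rw [h5]
    refine (abs_sub _ _).trans (add_le_add h4 ?_)
    rw [abs_mul, abs_of_nonneg (by positivity : (0 : ℝ) ≤ (gm k : ℝ))]
    gcongr
    linarith) H hH T hT S hS γ ε t
    (fun c hc => tracesP (by omega) hP (hγ c hc)) hε ht
  have h4 : ∀ c, ((((k * ((n : ℝ) - 1) + wt) / 2 : ℝ) : ℂ) + 1 + ε c + t c * Complex.I) =
      (k * ((n : ℂ) - 1) + wt) / 2 + 1 + ε c + t c * Complex.I := by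
    intro c
    push_cast
    ring
  simp only [h4] at h1
  exact h1

end

end Pool.Agent.Y722.TP
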