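import Pool.Agent.Y722.TP.Sep
import Pool.Agent.Y722.TM.Lin

/-!
# The normalised moments of the trace are those of the normal distribution
-/

set_option autoImplicit false
set_option linter.unusedSectionVars false

namespace Pool.Agent.Y722.TP

open Finset Pool.Agent.Y722.HS Pool.Agent.Y722.LS Pool.Agent.Y722.PC Pool.Agent.Y722.TM

/-- The moments of the normal distribution: `(k-1)!!` for even `k` and zero for odd `k`, the number of
the perfect matchings of `k` points. -/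
def gm (k : ℕ) : ℕ := if Even k then df (k / 2) else 0

/-- The normalised central moments. -/
theorem cm_norm (j : ℕ) (C1 : ℝ) (hC1 : 0 ≤ C1) : ∃ C : ℝ, 0 ≤ C ∧ ∀ (p Q : ℝ) (P : ℕ), 2 ≤ p →
    p ≤ Q → (P : ℝ) * (1 / p) ≤ 2 * Q → |(P : ℝ) * (1 / p) * (1 - 1 / p) - Q| ≤ C1 * (Q / p) →
    |cm (1 / p) P j / (Real.sqrt Q) ^ j - gm j| ≤ C / Real.sqrt p := by
  obtain ⟨a, rfl | rfl⟩ := Nat.even_or_odd' j
  · obtain ⟨C, hC0, hC⟩ := cm_main a
    refine ⟨C * 2 ^ a + df a * (a * (1 + C1) ^ (a - 1) * C1), by positivity, ?_⟩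
    intro p Q P hp hpQ hP hV
    have hp0 : 0 < p := by linarith
    have hQ0 : 0 < Q := by linarith
    have hq0 : 0 ≤ 1 / p := by positivity
    have hq1 : 1 / p ≤ 1 := by rw [div_le_one hp0]; linarith
    have hsp : Real.sqrt p ≤ p := by
      rw [Real.sqrt_le_left (by linarith)]
      nlinarith
    have hsp0 : 0 < Real.sqrt p := Real.sqrt_pos.mpr hp0
    have h1 := hC (1 / p) hq0 hq1 (2 * Q) (by linarith) P hP
    have hgm : gm (2 * a) = df a := by simp [gm]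
    have hsQ : (Real.sqrt Q) ^ (2 * a) = Q ^ a := by
      rw [pow_mul, Real.sq_sqrt hQ0.le]
    rw [hgm, hsQ]
    set V := (P : ℝ) * (1 / p) * (1 - 1 / p) with hVdef
    have hV0 : 0 ≤ V := by
      rw [hVdef]
      apply mul_nonneg (by positivity)
      linarith
    have e : cm (1 / p) P (2 * a) / Q ^ a - df a =
        (cm (1 / p) P (2 * a) - df a * V ^ a) / Q ^ a + df a * ((V / Q) ^ a - 1 ^ a) := by
      rw [div_pow]
      field_simp
      ring
    rw [e]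
    have hQ2 : p ≤ 2 * Q := by linarith
    have i1 : |(cm (1 / p) P (2 * a) - df a * V ^ a) / Q ^ a| ≤ C * 2 ^ a / p := by
      rw [abs_div, abs_of_pos (by positivity : 0 < Q ^ a), div_le_div_iff₀ (by positivity) hp0]
      calc |cm (1 / p) P (2 * a) - df a * V ^ a| * p ≤
            |cm (1 / p) P (2 * a) - df a * V ^ a| * (2 * Q) := by gcongr
        _ ≤ C * (2 * Q) ^ a := h1
        _ = _ := by rw [mul_pow]; ring
    have hVQ : |V / Q - 1| ≤ C1 / p := by
      have : V / Q - 1 = (V - Q) / Q := by field_simp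
      rw [this, abs_div, abs_of_pos hQ0, div_le_div_iff₀ hQ0 hp0]
      calc |V - Q| * p ≤ C1 * (Q / p) * p := by gcongr
        _ = _ := by field_simp
    have hC1p : C1 / p ≤ C1 := div_le_self hC1 (by linarith)
    have hVQ1 : V / Q ≤ 1 + C1 := by
      have := (abs_le.mp hVQ).2
      linarith
    have i2 := pow_near a (1 + C1) (V / Q) 1 (by linarith) (by positivity) hVQ1 zero_le_one
      (by linarith) (C1 / p) hVQ
    have i3 : |(df a : ℝ) * ((V / Q) ^ a - 1 ^ a)| ≤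
        df a * (a * (1 + C1) ^ (a - 1) * (C1 / p)) := by
      rw [abs_mul, abs_of_nonneg (by positivity : (0 : ℝ) ≤ df a)]
      gcongr
    refine (abs_add_le _ _).trans ((add_le_add i1 i3).trans ?_)
    have e2 : C * 2 ^ a / p + df a * (a * (1 + C1) ^ (a - 1) * (C1 / p)) =
        (C * 2 ^ a + df a * (a * (1 + C1) ^ (a - 1) * C1)) / p := by ring
    rw [e2]
    gcongr
  · obtain ⟨C, hC1', hC⟩ := cm_bound (2 * a + 1)
    refine ⟨C * 2 ^ a, by positivity, ?_⟩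
    intro p Q P hp hpQ hP _
    have hp0 : 0 < p := by linarith
    have hQ0 : 0 < Q := by linarith
    have hq0 : 0 ≤ 1 / p := by positivity
    have hq1 : 1 / p ≤ 1 := by rw [div_le_one hp0]; linarith
    have hsp0 : 0 < Real.sqrt p := Real.sqrt_pos.mpr hp0
    have h1 := hC (1 / p) hq0 hq1 (2 * Q) (by linarith) P hP
    have hgm : gm (2 * a + 1) = 0 := by
      unfold gm
      rw [if_neg (by simp)]
    have hsQ : (Real.sqrt Q) ^ (2 * a + 1) = Q ^ a * Real.sqrt Q := by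
      rw [pow_succ, pow_mul, Real.sq_sqrt hQ0.le]
    have h2 : (2 * a + 1) / 2 = a := by omega
    rw [h2] at h1
    have hsq : Real.sqrt p ≤ Real.sqrt Q := Real.sqrt_le_sqrt hpQ
    rw [hgm, hsQ, Nat.cast_zero, sub_zero, abs_div,
      abs_of_pos (mul_pos (pow_pos hQ0 a) (Real.sqrt_pos.mpr hQ0)),
      div_le_div_iff₀ (mul_pos (pow_pos hQ0 a) (Real.sqrt_pos.mpr hQ0)) hsp0]
    calc _ ≤ C * (2 * Q) ^ a * Real.sqrt Q := by gcongr
      _ = _ := by rw [mul_pow]; ring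

/-- Moments after a small translation. -/
theorem shift (m : ℕ) (D B : ℝ) (hD : 0 ≤ D) (hB : 0 ≤ B) : ∃ C : ℝ, 0 ≤ C ∧
    ∀ (h η : ℝ) (e : ℕ → ℝ), 0 ≤ h → h ≤ 1 → |η| ≤ D * h → (∀ j, j ≤ m → |e j| ≤ B) →
    |∑ j ∈ range (m + 1), (m.choose j : ℝ) * η ^ (m - j) * e j - e m| ≤ C * h := by
  refine ⟨∑ j ∈ range m, (m.choose j : ℝ) * D ^ (m - j) * B, by positivity, ?_⟩
  intro h η e h0 h1 hη he
  rw [Finset.sum_range_succ]
  simp only [Nat.choose_self, Nat.cast_one, Nat.sub_self, pow_zero, mul_one, one_mul,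
    add_sub_cancel_right]
  refine (Finset.abs_sum_le_sum_abs _ _).trans ?_
  rw [Finset.sum_mul]
  refine Finset.sum_le_sum fun j hj => ?_
  rw [Finset.mem_range] at hj
  rw [abs_mul, abs_mul, abs_pow, abs_of_nonneg (by positivity : (0 : ℝ) ≤ (m.choose j : ℝ))]
  have h2 : |η| ^ (m - j) ≤ D ^ (m - j) * h := by
    calc |η| ^ (m - j) ≤ (D * h) ^ (m - j) := by gcongr
      _ = D ^ (m - j) * h ^ (m - j) := mul_pow _ _ _
      _ ≤ D ^ (m - j) * h := by
          gcongr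
          obtain ⟨i, hi⟩ : ∃ i, m - j = i + 1 := ⟨m - j - 1, by omega⟩
          rw [hi, pow_succ]
          have : h ^ i ≤ 1 := pow_le_one₀ h0 h1
          nlinarith
  calc _ ≤ (m.choose j : ℝ) * (D ^ (m - j) * h) * B := by
        gcongr
        exact he j (by omega)
    _ = _ := by ring

variable {n d : ℕ} {ι : Type} [Fintype ι] [DecidableEq ι]

section
variable {f : ι → MvPolynomial (Fin (n + 1)) ℤ} {p : ℕ} [Fact p.Prime]

/-- The normalised trace. -/
noncomputable def yy (f : ι → MvPolynomial (Fin (n + 1)) ℤ) (u : ℕ → ℝ) (p : ℕ)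
    (c : ι → ZMod p) : ℝ :=
  (xn f p c - u p) / Real.sqrt ((p : ℝ) ^ (n - 1))

theorem geo_le (m : ℕ) (x : ℝ) (hx : 2 ≤ x) : (x ^ (m + 1) - 1) / (x - 1) ≤ 2 * x ^ m := by
  have h1 : 0 < x - 1 := by linarith
  rw [div_le_iff₀ h1, pow_succ]
  have : 1 ≤ x ^ m := one_le_pow₀ (by linarith)
  nlinarith

/-- The numbers that occur. -/
theorem nums (k : ℕ) (p z u C0 R : ℝ) (P : ℕ) (hp2 : 2 ≤ p) (hC0 : 0 ≤ C0) (hz0 : 0 ≤ z)
    (hPz : (P : ℝ) = (p ^ (k + 2 + 1) - 1) / (p - 1) - z) (hzk : z / p ≤ C0 * p ^ k)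
    (hzR : z / p ≤ C0 * R) (hR : 1 ≤ R) (hu : |z + (p ^ (k + 2) - 1) / (p - 1) - u| ≤ C0 * R) :
    (P : ℝ) * (1 / p) ≤ 2 * (p ^ k * p) ∧
    |(P : ℝ) * (1 / p) * (1 - 1 / p) - p ^ k * p| ≤ (5 + C0) * (p ^ k * p / p) ∧
    |(P : ℝ) * (1 / p) + z - u| ≤ (2 * C0 + 1) * R := by
  have hp0 : 0 < p := by linarith
  have hp1 : 0 < p - 1 := by linarith
  set μ : ℝ := (P : ℝ) * (1 / p) with hμ
  have hμ' : μ = (p ^ (k + 2) - 1) / (p - 1) + 1 / p - z / p := by
    rw [hμ, hPz]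
    field_simp
    ring
  have hpk : 1 ≤ p ^ k := one_le_pow₀ (by linarith)
  have hone : 1 / p ≤ 1 := by rw [div_le_one hp0]; linarith
  have hone0 : 0 ≤ 1 / p := by positivity
  have hz4 : 0 ≤ z / p := by positivity
  have hμ2 : μ ≤ 2 * (p ^ k * p) := by
    rw [hμ, hPz]
    have h1 := geo_le (k + 2) p hp2
    have h2 : (p ^ (k + 2 + 1) - 1) / (p - 1) - z ≤ 2 * p ^ (k + 2) := by linarith
    calc _ ≤ 2 * p ^ (k + 2) * (1 / p) := by gcongr
      _ = _ := by field_simp; ring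
  have hμQ : μ - p ^ k * p = (p ^ (k + 1) - 1) / (p - 1) + 1 / p - z / p := by
    rw [hμ']
    field_simp
    ring
  have h2 := geo_le k p hp2
  have h3 : 0 ≤ (p ^ (k + 1) - 1) / (p - 1) := by
    apply div_nonneg _ hp1.le
    have : 1 ≤ p ^ (k + 1) := one_le_pow₀ (by linarith)
    linarith
  have hμ0 : 0 ≤ μ := by positivity
  have h4 : μ * (1 / p) ≤ 2 * p ^ k := by
    calc μ * (1 / p) ≤ 2 * (p ^ k * p) * (1 / p) := by gcongr
      _ = _ := by field_simp
  have h5 : 0 ≤ μ * (1 / p) := by positivity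
  have h6 : p ^ k * p / p = p ^ k := by field_simp
  refine ⟨hμ2, ?_, ?_⟩
  · have h1 : μ * (1 - 1 / p) - p ^ k * p =
        (p ^ (k + 1) - 1) / (p - 1) + 1 / p - z / p - μ * (1 / p) := by
      rw [← hμQ]; ring
    have h7 : (5 + C0) * p ^ k = 5 * p ^ k + C0 * p ^ k := by ring
    have h8 : 0 ≤ C0 * p ^ k := by positivity
    rw [h1, h6, h7, abs_le]
    constructor <;> linarith
  · have h1 : μ + z - u = (z + (p ^ (k + 2) - 1) / (p - 1) - u) + (1 / p - z / p) := by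
      rw [hμ']; ring
    have h9 : |1 / p - z / p| ≤ (C0 + 1) * R := by
      have h7 : (C0 + 1) * R = C0 * R + R := by ring
      have h8 : 0 ≤ C0 * R := by positivity
      rw [h7, abs_le]
      constructor <;> linarith
    rw [h1]
    refine (abs_add_le _ _).trans ((add_le_add hu h9).trans (le_of_eq ?_))
    ring

theorem EM_lin {J : Type*} (p : ℕ) [NeZero p] (t : Finset J) (a : J → ℝ)
    (g : J → (ι → ZMod p) → ℝ) :
    EM p (fun c : ι → ZMod p => ∑ j ∈ t, a j * g j c) = ∑ j ∈ t, a j * EM p (g j) := by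
  unfold EM
  rw [Finset.sum_comm, Finset.sum_div]
  refine Finset.sum_congr rfl fun j _ => ?_
  rw [← Finset.mul_sum, mul_div_assoc]

/-- The moments in terms of the central moments. -/
theorem EM_yy (hf : ∀ i, (f i).IsHomogeneous d) {m : ℕ} (hs : SepK m f p) (u : ℕ → ℝ) :
    EM p (fun c : ι → ZMod p => yy f u p c ^ m) =
      ∑ j ∈ range (m + 1), (m.choose j : ℝ) *
        ((((TT f p).card : ℝ) * (1 / p) + zn f p - u p) / Real.sqrt ((p : ℝ) ^ (n - 1))) ^ (m - j) *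
        (cm (1 / (p : ℝ)) (TT f p).card j / Real.sqrt ((p : ℝ) ^ (n - 1)) ^ j) := by
  have hp1 : ((p : ℝ) - 1) ≠ 0 := by
    have : (1 : ℝ) < p := by exact_mod_cast (Fact.out : p.Prime).one_lt
    linarith
  set s := Real.sqrt ((p : ℝ) ^ (n - 1)) with hs'
  set μ : ℝ := ((TT f p).card : ℝ) * (1 / p) with hμ
  set η := (μ + zn f p - u p) / s with hη
  have h1 : (fun c : ι → ZMod p => yy f u p c ^ m) = fun c => ∑ j ∈ range (m + 1),
      ((m.choose j : ℝ) * η ^ (m - j) / s ^ j) * (((ZS f p c).card : ℝ) - μ) ^ j := by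
    funext c
    have h2 : yy f u p c = (((ZS f p c).card : ℝ) - μ) / s + η := by
      have h3 := lcone_ZS (f := f) (p := p) hf c
      have h4 : xn f p c = zn f p + (ZS f p c).card := by
        rw [xn, h3, zn]
        field_simp
      rw [yy, h4, hη]
      ring
    rw [h2, add_pow]
    refine Finset.sum_congr rfl fun j _ => ?_
    rw [div_pow]
    ring
  rw [h1, EM_lin (ι := ι) p (range (m + 1)) (fun j => (m.choose j : ℝ) * η ^ (m - j) / s ^ j)
    (fun j c => (((ZS f p c).card : ℝ) - μ) ^ j)]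
  refine Finset.sum_congr rfl fun j hj => ?_
  rw [Finset.mem_range] at hj
  rw [EM_pow hs j (by omega) μ]
  have h6 : BN (1 / (p : ℝ)) (TT f p).card (fun x => ((x : ℝ) - μ) ^ j) =
      cm (1 / (p : ℝ)) (TT f p).card j := by
    unfold cm
    rw [hμ]
  rw [h6]
  ring

end

/-- **The moments of the normalised trace.** -/
theorem mom_norm (m : ℕ) (C0 : ℝ) (hC0 : 0 ≤ C0) : ∃ C : ℝ, 0 ≤ C ∧
    ∀ (n d : ℕ) (ι : Type) [Fintype ι] [DecidableEq ι] (f : ι → MvPolynomial (Fin (n + 1)) ℤ)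
      (p : ℕ) [Fact p.Prime] (u : ℕ → ℝ), 2 ≤ n → (∀ i, (f i).IsHomogeneous d) → SepK m f p →
      zn f p ≤ C0 * (p : ℝ) ^ (((n : ℝ) - 1) / 2) →
      |zn f p + ((p : ℝ) ^ n - 1) / ((p : ℝ) - 1) - u p| ≤ C0 * (p : ℝ) ^ ((n : ℝ) / 2 - 1) →
      |EM p (fun c : ι → ZMod p => yy f u p c ^ m) - gm m| ≤ C / Real.sqrt p := by
  choose! Cc hCc0 hCc using cm_norm
  have hC10 : 0 ≤ 5 + C0 := by positivity
  set B : ℝ := ∑ j ∈ range (m + 1), (Cc j (5 + C0) + gm j) with hB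
  have hB0 : 0 ≤ B := Finset.sum_nonneg fun j _ => by
    have := hCc0 j (5 + C0) hC10
    positivity
  obtain ⟨C, hC0', hC⟩ := shift m (2 * C0 + 1) B (by positivity) hB0
  refine ⟨C + Cc m (5 + C0), by have := hCc0 m (5 + C0) hC10; positivity, ?_⟩
  intro n d ι _ _ f p hpF u hn hf hs hZ hu
  have hp := hpF.out
  have hp2 : (2 : ℝ) ≤ p := by exact_mod_cast hp.two_le
  have hp0 : (0 : ℝ) < p := by linarith
  have hp1 : (0 : ℝ) < (p : ℝ) - 1 := by linarith
  obtain ⟨k, rfl⟩ : ∃ k, n = k + 2 := ⟨n - 2, by omega⟩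
  have hQ' : (p : ℝ) ^ (k + 2 - 1) = (p : ℝ) ^ k * p := by
    rw [← pow_succ]; congr 1
  have hpk : (1 : ℝ) ≤ (p : ℝ) ^ k := one_le_pow₀ (by linarith)
  have hz0 : 0 ≤ zn f p := zn_nonneg f p hp
  have hcard := card_TT (f := f) (p := p) hf
  have hPz : ((TT f p).card : ℝ) = ((p : ℝ) ^ (k + 2 + 1) - 1) / ((p : ℝ) - 1) - zn f p := by
    rw [zn]
    field_simp
    linarith
  have hzQ : zn f p / p ≤ C0 * (p : ℝ) ^ k := by
    rw [div_le_iff₀ hp0]
    refine hZ.trans ?_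
    rw [mul_assoc]
    gcongr
    rw [← pow_succ, ← Real.rpow_natCast]
    apply Real.rpow_le_rpow_of_exponent_le (by linarith)
    push_cast
    have : (0 : ℝ) ≤ k := by positivity
    linarith
  have hzD : zn f p / p ≤ C0 * (p : ℝ) ^ (((k + 2 : ℕ) : ℝ) / 2 - 1) := by
    rw [div_le_iff₀ hp0]
    refine hZ.trans ?_
    rw [mul_assoc]
    gcongr
    rw [← Real.rpow_add_one hp0.ne']
    apply Real.rpow_le_rpow_of_exponent_le (by linarith)
    linarith
  have hR : (1 : ℝ) ≤ (p : ℝ) ^ (((k + 2 : ℕ) : ℝ) / 2 - 1) := by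
    apply Real.one_le_rpow (by linarith)
    push_cast
    have : (0 : ℝ) ≤ k := by positivity
    linarith
  obtain ⟨n1, n2, n3⟩ := nums k p (zn f p) (u p) C0 _ (TT f p).card hp2 hC0 hz0 hPz hzQ hzD hR hu
  have hsr : Real.sqrt ((p : ℝ) ^ (k + 2 - 1)) =
      (p : ℝ) ^ (((k + 2 : ℕ) : ℝ) / 2 - 1) * Real.sqrt p := by
    rw [Real.sqrt_eq_rpow, Real.sqrt_eq_rpow, ← Real.rpow_natCast,
      ← Real.rpow_mul hp0.le, ← Real.rpow_add hp0]
    congr 1
    rw [Nat.cast_sub (by omega : 1 ≤ k + 2)]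
    push_cast
    ring
  have hsp0 : 0 < Real.sqrt p := Real.sqrt_pos.mpr hp0
  have hsp1 : 1 ≤ Real.sqrt p := by
    rw [Real.one_le_sqrt]; linarith
  rw [EM_yy hf hs u]
  have hcmj : ∀ j, |cm (1 / (p : ℝ)) (TT f p).card j /
      (Real.sqrt ((p : ℝ) ^ (k + 2 - 1))) ^ j - gm j| ≤ Cc j (5 + C0) / Real.sqrt p := by
    intro j
    rw [hQ']
    exact hCc j (5 + C0) hC10 p ((p : ℝ) ^ k * p) (TT f p).card hp2 (by nlinarith) n1 n2
  have hs0 : 0 < Real.sqrt ((p : ℝ) ^ (k + 2 - 1)) := Real.sqrt_pos.mpr (by positivity)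
  set s := Real.sqrt ((p : ℝ) ^ (k + 2 - 1)) with hs'
  set δ := ((TT f p).card : ℝ) * (1 / p) + zn f p - u p with hδ
  have hη : |δ / s| ≤ (2 * C0 + 1) * (1 / Real.sqrt p) := by
    rw [abs_div, abs_of_pos hs0, div_le_iff₀ hs0, hsr]
    refine n3.trans (le_of_eq ?_)
    field_simp
  have he : ∀ j, j ≤ m → |cm (1 / (p : ℝ)) (TT f p).card j / s ^ j| ≤ B := by
    intro j hj
    have h1 := hcmj j
    have h2 : Cc j (5 + C0) / Real.sqrt p ≤ Cc j (5 + C0) :=
      div_le_self (hCc0 j (5 + C0) hC10) hsp1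
    have h3 : |cm (1 / (p : ℝ)) (TT f p).card j / s ^ j| ≤ Cc j (5 + C0) + gm j := by
      have h4 := abs_sub_abs_le_abs_sub (cm (1 / (p : ℝ)) (TT f p).card j / s ^ j) (gm j : ℝ)
      rw [abs_of_nonneg (by positivity : (0 : ℝ) ≤ (gm j : ℝ))] at h4
      linarith
    refine h3.trans ?_
    exact Finset.single_le_sum (f := fun j => Cc j (5 + C0) + (gm j : ℝ))
      (fun i _ => by have := hCc0 i (5 + C0) hC10; positivity)
      (Finset.mem_range.mpr (by omega))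
  have h1 := hC (1 / Real.sqrt p) (δ / s) (fun j => cm (1 / (p : ℝ)) (TT f p).card j / s ^ j)
    (by positivity) (by rw [div_le_one hsp0]; exact hsp1) hη he
  have h2 := hcmj m
  have h3 := abs_sub_le (∑ j ∈ range (m + 1), (m.choose j : ℝ) * (δ / s) ^ (m - j) *
        (cm (1 / (p : ℝ)) (TT f p).card j / s ^ j))
        (cm (1 / (p : ℝ)) (TT f p).card m / s ^ m) (gm m : ℝ)
  have h4 : (C + Cc m (5 + C0)) / Real.sqrt p =
      C * (1 / Real.sqrt p) + Cc m (5 + C0) / Real.sqrt p := by ring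
  rw [h4]
  linarith

end Pool.Agent.Y722.TP
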