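import Pool.Agent.Y722.PC.Four
import Pool.Agent.Y722.LS.Abs
import Pool.Agent.Y722.TP.Bin

/-!
# Many points impose independent conditions: the moments of the number of points are binomial
-/

set_option autoImplicit false
set_option linter.unusedSectionVars false

namespace Pool.Agent.Y722.TP

open Finset Pool.Agent.Y722.HS Pool.Agent.Y722.LS Pool.Agent.Y722.PC
open scoped LinearAlgebra.Projectivization

variable {n d : ℕ} {ι : Type} [Fintype ι] [DecidableEq ι]

/-- `K` points over `𝔽_p` outside the base locus impose independent conditions. -/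
def SepK (K : ℕ) (f : ι → MvPolynomial (Fin (n + 1)) ℤ) (p : ℕ) : Prop :=
  ∀ (x : Fin (n + 1) → ZMod p) (Y : Finset (Fin (n + 1) → ZMod p)), Y.card < K →
    (∀ y ∈ Y, ∃ i j, x i * y j ≠ x j * y i) → (∃ i, MvPolynomial.aeval x (f i) ≠ 0) →
      ∃ c : ι → ZMod p, MvPolynomial.eval x (lform f c) ≠ 0 ∧
        ∀ y ∈ Y, MvPolynomial.eval y (lform f c) = 0

section
variable {f : ι → MvPolynomial (Fin (n + 1)) ℤ} {p : ℕ} [Fact p.Prime]

noncomputable instance : Fintype (ℙ (ZMod p) (Fin (n + 1) → ZMod p)) := Fintype.ofFinite _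

open Classical in
/-- The points outside the base locus. -/
noncomputable def TT (f : ι → MvPolynomial (Fin (n + 1)) ℤ) (p : ℕ) [Fact p.Prime] :
    Finset (ℙ (ZMod p) (Fin (n + 1) → ZMod p)) :=
  Finset.univ.filter (fun v => ∃ i, MvPolynomial.aeval v.rep (f i) ≠ 0)

theorem mem_TT {v : ℙ (ZMod p) (Fin (n + 1) → ZMod p)} :
    v ∈ TT f p ↔ ∃ i, MvPolynomial.aeval v.rep (f i) ≠ 0 := by
  simp [TT]

theorem sum_YY (hf : ∀ i, (f i).IsHomogeneous d) (g : (Fin (n + 1) → ZMod p) → ℝ)
    (hg : ∀ (a : (ZMod p)ˣ) (x : Fin (n + 1) → ZMod p), g ((a : ZMod p) • x) = g x) :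
    ∑ x ∈ YY f p, g x = ((p : ℝ) - 1) * ∑ v ∈ TT f p, g v.rep := by
  classical
  have h1 : ∑ va ∈ (TT f p) ×ˢ (Finset.univ : Finset (ZMod p)ˣ), g va.1.rep =
      ∑ x ∈ YY f p, g x := by
    refine Finset.sum_bij (fun va _ => (va.2 : ZMod p) • va.1.rep) ?_ ?_ ?_ ?_
    · rintro ⟨v, a⟩ hva
      rw [Finset.mem_product] at hva
      obtain ⟨i, hi⟩ := mem_TT.mp hva.1
      rw [mem_YY]
      refine ⟨smul_ne_zero a.ne_zero v.rep_nonzero, i, ?_⟩
      rw [aeval_smul (f i) (hf i)]
      exact mul_ne_zero (pow_ne_zero _ a.ne_zero) hi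
    · rintro ⟨v, a⟩ _ ⟨w, b⟩ _ h
      simp only at h
      have h2 : v = w := by
        rw [← v.mk_rep, ← w.mk_rep, Projectivization.mk_eq_mk_iff']
        refine ⟨(a : ZMod p)⁻¹ * b, ?_⟩
        rw [mul_smul, ← h, smul_smul, inv_mul_cancel₀ a.ne_zero, one_smul]
      subst h2
      have h3 : (a : ZMod p) = b := by
        have h4 : ((a : ZMod p) - b) • v.rep = 0 := by rw [sub_smul, h, sub_self]
        rcases smul_eq_zero.mp h4 with h5 | h5
        · exact sub_eq_zero.mp h5
        · exact absurd h5 v.rep_nonzero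
      rw [Units.ext h3]
    · intro x hx
      obtain ⟨hx0, i, hi⟩ := mem_YY.mp hx
      obtain ⟨a, ha⟩ := Projectivization.exists_smul_eq_mk_rep (ZMod p) x hx0
      have ha' : (a : ZMod p) • x = (Projectivization.mk (ZMod p) x hx0).rep := ha
      refine ⟨(Projectivization.mk (ZMod p) x hx0, a⁻¹), ?_, ?_⟩
      · rw [Finset.mem_product]
        refine ⟨mem_TT.mpr ⟨i, ?_⟩, Finset.mem_univ _⟩
        rw [← ha', aeval_smul (f i) (hf i)]
        exact mul_ne_zero (pow_ne_zero _ a.ne_zero) hi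
      · simp only
        rw [← ha', smul_smul, Units.inv_mul, one_smul]
    · rintro ⟨v, a⟩ _
      simp only
      rw [hg]
  rw [← h1, Finset.sum_product]
  simp only [Finset.sum_const, nsmul_eq_mul]
  rw [← Finset.mul_sum, Finset.card_univ, ZMod.card_units]
  have h2 : ((p - 1 : ℕ) : ℝ) = (p : ℝ) - 1 := by
    rw [Nat.cast_sub (Fact.out : p.Prime).one_lt.le]
    simp
  rw [h2]

theorem card_TT (hf : ∀ i, (f i).IsHomogeneous d) :
    (p : ℝ) ^ (n + 1) - 1 - bcone f p = ((p : ℝ) - 1) * (TT f p).card := by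
  have h1 := sum_YY (f := f) (p := p) hf (fun _ => 1) (fun _ _ => rfl)
  rw [Finset.sum_const, nsmul_eq_mul, mul_one, card_YY, Finset.sum_const, nsmul_eq_mul,
    mul_one] at h1
  exact h1

open Classical in
/-- The points outside the base locus on the hypersurface. -/
noncomputable def ZS (f : ι → MvPolynomial (Fin (n + 1)) ℤ) (p : ℕ) [Fact p.Prime]
    (c : ι → ZMod p) : Finset (ℙ (ZMod p) (Fin (n + 1) → ZMod p)) :=
  (TT f p).filter (fun v => lval f c v.rep = 0)

theorem lcone_ZS (hf : ∀ i, (f i).IsHomogeneous d) (c : ι → ZMod p) :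
    (lcone f c : ℝ) = bcone f p + ((p : ℝ) - 1) * (ZS f p c).card := by
  classical
  rw [lcone_eq, sum_YY hf (fun x => if lval f c x = 0 then (1 : ℝ) else 0)]
  · congr 2
    rw [ZS, Finset.card_filter]
    push_cast
    rfl
  · intro a x
    have h1 : lval f c ((a : ZMod p) • x) = 0 ↔ lval f c x = 0 := by
      rw [lval_smul_vec hf]
      simp
    simp only [h1]

theorem ne_rep {v w : ℙ (ZMod p) (Fin (n + 1) → ZMod p)} (h : v ≠ w) :
    ∃ i j, v.rep i * w.rep j ≠ v.rep j * w.rep i := by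
  by_contra hcon
  push Not at hcon
  apply h
  have hR : Rel v.rep w.rep := hcon
  obtain ⟨j, hj⟩ : ∃ j, w.rep j ≠ 0 := Function.ne_iff.mp w.rep_nonzero
  rw [← v.mk_rep, ← w.mk_rep, Projectivization.mk_eq_mk_iff']
  refine ⟨v.rep j / w.rep j, ?_⟩
  funext i
  have h1 := hcon i j
  rw [Pi.smul_apply, smul_eq_mul, div_mul_eq_mul_div, div_eq_iff hj]
  exact h1.symm

theorem card_vanish {K : ℕ} (hs : SepK K f p) (U : Finset (ℙ (ZMod p) (Fin (n + 1) → ZMod p)))
    (hU : U ⊆ TT f p) (hK : U.card ≤ K) :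
    Nat.card {c : ι → ZMod p // ∀ v ∈ U, lval f c v.rep = 0} * p ^ U.card =
      p ^ Fintype.card ι := by
  classical
  set g : (ι → ZMod p) →+ (U → ZMod p) :=
    { toFun := fun c v => lval f c v.1.rep
      map_zero' := by funext v; exact lval_zero f v.1.rep
      map_add' := fun a b => by funext v; exact lval_add f a b v.1.rep } with hg
  have hex : ∀ v : U, ∃ c : ι → ZMod p, lval f c v.1.rep ≠ 0 ∧
      ∀ w ∈ U, w ≠ v.1 → lval f c w.rep = 0 := by
    intro v
    have h1 : (((U.erase v.1).image fun w => w.rep)).card < K := by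
      refine (Finset.card_image_le).trans_lt ?_
      rw [Finset.card_erase_of_mem v.2]
      have : 0 < U.card := Finset.card_pos.mpr ⟨v.1, v.2⟩
      omega
    obtain ⟨c, hc1, hc2⟩ := hs v.1.rep ((U.erase v.1).image fun w => w.rep) h1 (by
      intro y hy
      obtain ⟨w, hw, rfl⟩ := Finset.mem_image.mp hy
      exact ne_rep (Finset.ne_of_mem_erase hw).symm) (mem_TT.mp (hU v.2))
    rw [eval_lform] at hc1
    refine ⟨c, hc1, fun w hw hwv => ?_⟩
    have h2 := hc2 w.rep (Finset.mem_image.mpr ⟨w, Finset.mem_erase.mpr ⟨hwv, hw⟩, rfl⟩)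
    rw [eval_lform] at h2
    exact h2
  choose e he1 he2 using hex
  have hsurj : Function.Surjective g := by
    intro h
    refine ⟨∑ v : U, (h v / lval f (e v) v.1.rep) • e v, ?_⟩
    rw [map_sum]
    funext w
    rw [Finset.sum_apply, Finset.sum_eq_single w]
    · change lval f ((h w / lval f (e w) w.1.rep) • e w) w.1.rep = h w
      rw [lval_smul, div_mul_cancel₀ _ (he1 w)]
    · intro v _ hvw
      change lval f ((h v / lval f (e v) v.1.rep) • e v) w.1.rep = 0
      rw [lval_smul, he2 v w.1 w.2 (fun h' => hvw (Subtype.ext h'.symm)), mul_zero]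
    · intro h'
      exact absurd (Finset.mem_univ w) h'
  have h1 := card_ker g hsurj
  have h2 : Nat.card {c // g c = 0} =
      Nat.card {c : ι → ZMod p // ∀ v ∈ U, lval f c v.rep = 0} := by
    refine Nat.card_congr (Equiv.subtypeEquivRight fun c => ?_)
    constructor
    · intro h v hv
      exact congrFun h ⟨v, hv⟩
    · intro h
      funext v
      exact h v.1 v.2
  rw [h2] at h1
  simp only [Nat.card_eq_fintype_card (α := ι → ZMod p), Nat.card_eq_fintype_card (α := U → ZMod p),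
    Fintype.card_fun, ZMod.card, Fintype.card_coe] at h1
  exact h1

/-- The factorial moments of the number of points. -/
theorem EM_choose {K : ℕ} (hs : SepK K f p) (j : ℕ) (hj : j ≤ K) :
    EM p (fun c : ι → ZMod p => (((ZS f p c).card.choose j : ℕ) : ℝ)) =
      ((TT f p).card.choose j : ℝ) * (1 / (p : ℝ)) ^ j := by
  classical
  have hp0 : (0 : ℝ) < p := by exact_mod_cast (Fact.out : p.Prime).pos
  have h1 : ∀ c : ι → ZMod p, (((ZS f p c).card.choose j : ℕ) : ℝ) =
      ∑ U ∈ powersetCard j (TT f p), if ∀ v ∈ U, lval f c v.rep = 0 then (1 : ℝ) else 0 := by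
    intro c
    rw [← Finset.card_powersetCard, ← Finset.sum_filter, Finset.sum_const, nsmul_eq_mul, mul_one]
    congr 2
    ext U
    rw [Finset.mem_powersetCard, Finset.mem_filter, Finset.mem_powersetCard, ZS]
    constructor
    · rintro ⟨h1, h2⟩
      exact ⟨⟨fun v hv => (Finset.mem_filter.mp (h1 hv)).1, h2⟩,
        fun v hv => (Finset.mem_filter.mp (h1 hv)).2⟩
    · rintro ⟨⟨h1, h2⟩, h3⟩
      exact ⟨fun v hv => Finset.mem_filter.mpr ⟨h1 hv, h3 v hv⟩, h2⟩
  unfold EM
  rw [Finset.sum_congr rfl fun c _ => h1 c, Finset.sum_comm]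
  have h2 : ∀ U ∈ powersetCard j (TT f p),
      ∑ c : ι → ZMod p, (if ∀ v ∈ U, lval f c v.rep = 0 then (1 : ℝ) else 0) =
        (p : ℝ) ^ Fintype.card ι * (1 / (p : ℝ)) ^ j := by
    intro U hU
    obtain ⟨hU1, hU2⟩ := Finset.mem_powersetCard.mp hU
    have h3 := card_vanish hs U hU1 (by omega)
    rw [hU2] at h3
    have h4 : ∑ c : ι → ZMod p, (if ∀ v ∈ U, lval f c v.rep = 0 then (1 : ℝ) else 0) =
        ((Nat.card {c : ι → ZMod p // ∀ v ∈ U, lval f c v.rep = 0} : ℕ) : ℝ) := by
      rw [Nat.card_eq_fintype_card, Fintype.card_subtype]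
      simp
    rw [h4]
    have h5 : ((Nat.card {c : ι → ZMod p // ∀ v ∈ U, lval f c v.rep = 0} : ℕ) : ℝ) *
        (p : ℝ) ^ j = (p : ℝ) ^ Fintype.card ι := by exact_mod_cast h3
    rw [one_div, inv_pow, ← h5]
    field_simp
  rw [Finset.sum_congr rfl h2, Finset.sum_const, nsmul_eq_mul, Finset.card_powersetCard]
  have hM : (0 : ℝ) < (p : ℝ) ^ Fintype.card ι := by positivity
  field_simp

/-- Powers in terms of binomial coefficients. -/
theorem pow_span (a : ℝ) (m : ℕ) : ∃ e : ℕ → ℝ, ∀ x : ℕ,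
    ((x : ℝ) - a) ^ m = ∑ j ∈ range (m + 1), e j * (x.choose j : ℝ) := by
  induction m with
  | zero => exact ⟨fun _ => 1, fun x => by simp⟩
  | succ m ih =>
    obtain ⟨e, he⟩ := ih
    have key : ∀ (x j : ℕ), (x : ℝ) * (x.choose j : ℝ) =
        (j + 1) * (x.choose (j + 1) : ℝ) + j * (x.choose j : ℝ) := by
      intro x j
      have h1 := Nat.choose_succ_right_eq x j
      rcases le_or_gt j x with h | h
      · have h2 : ((x.choose (j + 1) : ℕ) : ℝ) * (j + 1) = (x.choose j : ℝ) * ((x : ℝ) - j) := by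
          rw [← Nat.cast_sub h]
          exact_mod_cast h1
        linarith
      · rw [Nat.choose_eq_zero_of_lt h, Nat.choose_eq_zero_of_lt (by omega : x < j + 1)]
        simp
    refine ⟨fun j => (if j = 0 then 0 else j * e (j - 1)) +
      (if j = m + 1 then 0 else (j - a) * e j), fun x => ?_⟩
    have h1 : ((x : ℝ) - a) ^ (m + 1) = ∑ j ∈ range (m + 1),
        (((j + 1) * e j) * (x.choose (j + 1) : ℝ) + ((j - a) * e j) * (x.choose j : ℝ)) := by
      rw [pow_succ, he x, Finset.sum_mul]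
      refine Finset.sum_congr rfl fun j _ => ?_
      have := key x j
      linear_combination e j * this
    rw [h1, Finset.sum_add_distrib]
    have h2 : ∑ j ∈ range (m + 1 + 1), ((if j = 0 then (0 : ℝ) else j * e (j - 1)) +
        (if j = m + 1 then 0 else (j - a) * e j)) * (x.choose j : ℝ) =
        ∑ j ∈ range (m + 1 + 1), (if j = 0 then (0 : ℝ) else j * e (j - 1)) * (x.choose j : ℝ) +
        ∑ j ∈ range (m + 1 + 1), (if j = m + 1 then 0 else (j - a) * e j) * (x.choose j : ℝ) := by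
      rw [← Finset.sum_add_distrib]
      exact Finset.sum_congr rfl fun j _ => by ring
    rw [h2]
    congr 1
    · rw [Finset.sum_range_succ' _ (m + 1)]
      simp
    · rw [Finset.sum_range_succ _ (m + 1)]
      simp only [if_true, zero_mul, add_zero]
      refine Finset.sum_congr rfl fun j hj => ?_
      rw [if_neg (by rw [Finset.mem_range] at hj; omega)]

/-- The moments of the number of points are those of the binomial distribution. -/
theorem EM_pow {K : ℕ} (hs : SepK K f p) (m : ℕ) (hm : m ≤ K) (a : ℝ) :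
    EM p (fun c : ι → ZMod p => (((ZS f p c).card : ℝ) - a) ^ m) =
      BN (1 / (p : ℝ)) (TT f p).card (fun x => ((x : ℝ) - a) ^ m) := by
  obtain ⟨e, he⟩ := pow_span a m
  have h1 : (fun c : ι → ZMod p => (((ZS f p c).card : ℝ) - a) ^ m) =
      fun c => ∑ j ∈ range (m + 1), e j * (((ZS f p c).card.choose j : ℕ) : ℝ) := by
    funext c; exact he _
  have h2 : (fun x : ℕ => ((x : ℝ) - a) ^ m) =
      fun x : ℕ => ∑ j ∈ range (m + 1), e j * (x.choose j : ℝ) := by
    funext x; exact he x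
  rw [h1, h2, BN_sum]
  have h3 : EM p (fun c : ι → ZMod p => ∑ j ∈ range (m + 1),
      e j * (((ZS f p c).card.choose j : ℕ) : ℝ)) =
      ∑ j ∈ range (m + 1), e j * EM p (fun c : ι → ZMod p =>
        (((ZS f p c).card.choose j : ℕ) : ℝ)) := by
    unfold EM
    rw [Finset.sum_comm, Finset.sum_div]
    refine Finset.sum_congr rfl fun j _ => ?_
    rw [← Finset.mul_sum, mul_div_assoc]
  rw [h3]
  refine Finset.sum_congr rfl fun j hj => ?_
  rw [Finset.mem_range] at hj
  rw [BN_mul, BN_choose, EM_choose hs j (by omega)]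

end

end Pool.Agent.Y722.TP
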